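import Pool.Agent.N214.CL.Core
import Pool.Agent.N214.CP.Fin2

/-!
The fibration defined by several multi-valued maps to open varieties whose logarithmic canonical
forms separate points.
-/

set_option autoImplicit false
set_option linter.overlappingInstances false
set_option linter.unusedSectionVars false

open FF Module IntermediateField Pool.Agent.W602.GT Pool.Agent.W603.LV Pool.Agent.Y172
open Pool.Agent.N214.CP (exists_mul base2 ess_any trdeg_lt alg_adjoin' Sep)

namespace Pool.Agent.N214.CL

/-- There is a logarithmic tensor form `T ≠ 0` and there are `b` algebraically independent functions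
`c k` such that `T` and all `c k • T` are regular at all prime divisors. -/
def BigTensors (N : Type) [Field N] [Algebra ℂ N] (b : ℕ) (B : Place ℂ N → Prop) : Prop :=
  ∃ (r : ℕ) (T : MultilinearMap N (fun _ : Fin r => Derivation ℂ N N) N) (c : Fin b → N),
    T ≠ 0 ∧ TensorReg b B T ∧ (∀ k, TensorReg b B (c k • T)) ∧ AlgebraicIndependent ℂ c

theorem adm_mono {N : Type} [Field N] [Algebra ℂ N] {B B' : Place ℂ N → Prop}
    (h : ∀ P, B' P → B P) {P : Place ℂ N} {D : Derivation ℂ N N} (hD : Adm B P D) : Adm B' P D :=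
  hD.elim Or.inl fun h1 => Or.inr ⟨fun h2 => h1.1 (h P h2), h1.2⟩

theorem tensorReg_mono {N : Type} [Field N] [Algebra ℂ N] {b : ℕ} {B B' : Place ℂ N → Prop}
    (h : ∀ P, B' P → B P) {r : ℕ}
    {T : MultilinearMap N (fun _ : Fin r => Derivation ℂ N N) N} (hT : TensorReg b B' T) :
    TensorReg b B T :=
  fun P hP D hD => hT P hP D fun i => adm_mono h (hD i)

theorem big_of {N : Type} [Field N] [Algebra ℂ N] {b r : ℕ} {B : Place ℂ N → Prop}
    (hN : Algebra.trdeg ℂ N = b)
    {T : MultilinearMap N (fun _ : Fin r => Derivation ℂ N N) N} {ι : Type} {a : ι → N}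
    (hT0 : T ≠ 0) (hT : TensorReg b B T) (hTa : ∀ i, TensorReg b B (a i • T))
    (halg : ∀ w : N, IsAlgebraic (IntermediateField.adjoin ℂ (Set.range a)) w) :
    BigTensors N b B := by
  have h1 : Algebra.IsAlgebraic (IntermediateField.adjoin ℂ (Set.range a)) N := ⟨halg⟩
  have h2 := alg_adjoin' h1
  obtain ⟨B', hB, hBt⟩ := exists_isTranscendenceBasis_subset (R := ℂ) (Set.range a)
  have hcard := hBt.cardinalMk_eq_trdeg
  rw [hN] at hcard
  obtain ⟨ψ⟩ : Nonempty (Fin b ≃ B') := by
    rw [← Cardinal.eq, Cardinal.mk_fin]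
    exact hcard.symm
  have hub : IsTranscendenceBasis ℂ (fun l => (ψ l : N)) := hBt.comp_equiv ψ
  choose i hi using fun l => hB (ψ l).2
  refine ⟨r, T, fun l => (ψ l : N), hT0, hT, fun k => ?_, hub.1⟩
  change TensorReg b B ((ψ k : N) • T)
  rw [← hi k]
  exact hTa _

/-- the product of several tensors -/
theorem exists_prod {N : Type} [Field N] [Algebra ℂ N] {b : ℕ} {B : Place ℂ N → Prop} {J : Type}
    [Finite J] {r : J → ℕ}
    (T : ∀ j, MultilinearMap N (fun _ : Fin (r j) => Derivation ℂ N N) N)
    {ι : J → Type} (a : ∀ j, ι j → N) (hT0 : ∀ j, T j ≠ 0) (hT : ∀ j, TensorReg b B (T j))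
    (hTa : ∀ j i, TensorReg b B (a j i • T j)) :
    ∃ (s : ℕ) (S : MultilinearMap N (fun _ : Fin s => Derivation ℂ N N) N), S ≠ 0 ∧
      TensorReg b B S ∧ ∀ j i, TensorReg b B (a j i • S) := by
  classical
  have := Fintype.ofFinite J
  have hall : ∀ F : Finset J, ∃ (s : ℕ)
      (S : MultilinearMap N (fun _ : Fin s => Derivation ℂ N N) N), S ≠ 0 ∧
      TensorReg b B S ∧ ∀ j ∈ F, ∀ i, TensorReg b B (a j i • S) := by
    intro F
    induction F using Finset.induction_on with
    | empty =>
      refine ⟨0, MultilinearMap.constOfIsEmpty N _ 1, ?_, ?_, fun j hj => ?_⟩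
      · intro h0
        have h1 := congrArg (fun S => S (fun i => Fin.elim0 i)) h0
        exact one_ne_zero h1
      · intro P _ D _
        exact P.reg_one
      · exact absurd hj (Finset.notMem_empty j)
    | insert j0 F hj0 ih =>
      obtain ⟨s, S, hS0, hS, hSa⟩ := ih
      obtain ⟨U, hU⟩ := exists_mul (T j0) S
      refine ⟨r j0 + s, U, ?_, ?_, ?_⟩
      · intro h0
        obtain ⟨D1, hD1⟩ : ∃ D1, T j0 D1 ≠ 0 := by
          by_contra h
          push Not at h
          exact hT0 j0 (MultilinearMap.ext fun D => h D)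
        obtain ⟨D2, hD2⟩ : ∃ D2, S D2 ≠ 0 := by
          by_contra h
          push Not at h
          exact hS0 (MultilinearMap.ext fun D => h D)
        have h1 := hU (Fin.append D1 D2)
        rw [h0] at h1
        simp only [Fin.append_left, Fin.append_right] at h1
        exact mul_ne_zero hD1 hD2 h1.symm
      · intro P hP D hD
        rw [hU]
        exact P.reg_mul (hT j0 P hP _ fun i => hD _) (hS P hP _ fun i => hD _)
      · intro j hj i P hP D hD
        change P.Reg (a j i * U D)
        rw [hU]
        rcases Finset.mem_insert.1 hj with rfl | hj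
        · rw [← mul_assoc]
          exact P.reg_mul (hTa j i P hP _ fun i => hD _) (hS P hP _ fun i => hD _)
        · rw [mul_left_comm]
          exact P.reg_mul (hT j0 P hP _ fun i => hD _) (hSa j hj i P hP _ fun i => hD _)
  obtain ⟨s, S, h0, h1, h2⟩ := hall Finset.univ
  exact ⟨s, S, h0, h1, fun j i => h2 j (Finset.mem_univ j) i⟩

/-- **Several multi-valued maps to open varieties whose logarithmic canonical forms separate
points.** -/
theorem main {L K : Type} [Field L] [Field K] [Algebra ℂ L] [Algebra ℂ K]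
    [Algebra L K] [IsScalarTower ℂ L K] [FiniteDimensional L K] [Algebra.EssFiniteType ℂ L]
    {J : Type} [Finite J] (E : J → Type) [∀ j, Field (E j)] [∀ j, Algebra ℂ (E j)]
    [∀ j, Algebra (E j) K] [∀ j, IsScalarTower ℂ (E j) K]
    [∀ j, Algebra.EssFiniteType ℂ (E j)] {m : J → ℕ} (hE : ∀ j, Algebra.trdeg ℂ (E j) = m j)
    {x : ∀ j, Fin (m j) → E j} (hx : ∀ j, IsTranscendenceBasis ℂ (x j))
    {BX : ∀ j, Place ℂ (E j) → Prop} {g : J → ℕ}
    (hsep : ∀ j, Sep (HX (x j) (BX j)) (g j))
    (hd : ∀ j, 2 * finrank L (IntermediateField.adjoin L (Set.range (algebraMap (E j) K))) <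
      g j) :
    ∃ (N : IntermediateField ℂ L) (b : ℕ), Algebra.trdeg ℂ N = b ∧
      (∀ z : L, IsAlgebraic N z → z ∈ N) ∧
      (∀ j, ∀ z : E j, IsAlgebraic N (algebraMap (E j) K z)) ∧
      (∀ j, FiniteDimensional N
        (IntermediateField.adjoin N (Set.range (algebraMap (E j) K)))) ∧
      Algebra.trdeg ℂ (IntermediateField.adjoin ℂ (⋃ j, Set.range (algebraMap (E j) K))) ≤ b ∧
      BigTensors N b (fun P => ∃ (j : J)
        (Q : Place ℂ (IntermediateField.adjoin N (Set.range (algebraMap (E j) K)))) (e : ℕ)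
        (P' : Place ℂ (E j)) (e' : ℕ), Over Q P e ∧ BX j P' ∧ 0 < e' ∧
        ∀ (z : E j) (y : IntermediateField.adjoin N (Set.range (algebraMap (E j) K))),
          (y : K) = algebraMap (E j) K z → Q.ord y = e' * P'.ord z) := by
  classical
  obtain ⟨N, hcl, halg, hfin, hdeg, hmin⟩ := base2 L K E
  have hessN : Algebra.EssFiniteType ℂ N := ess_any N
  obtain ⟨b, hb⟩ : ∃ b : ℕ, Algebra.trdeg ℂ N = b :=
    Cardinal.lt_aleph0.1 (trdeg_lt (k := ℂ) (K := N))
  obtain ⟨B, hB⟩ : ∃ B : Place ℂ N → Prop, B = fun P => ∃ (j : J)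
        (Q : Place ℂ (IntermediateField.adjoin N (Set.range (algebraMap (E j) K)))) (e : ℕ)
        (P' : Place ℂ (E j)) (e' : ℕ), Over Q P e ∧ BX j P' ∧ 0 < e' ∧
        ∀ (z : E j) (y : IntermediateField.adjoin N (Set.range (algebraMap (E j) K))),
          (y : K) = algebraMap (E j) K z → Q.ord y = e' * P'.ord z := ⟨_, rfl⟩
  -- the tensors of one map
  have hone : ∀ j, ∃ (r : ℕ) (T : MultilinearMap N (fun _ : Fin r => Derivation ℂ N N) N)
      (ι : Type) (a : ι → N), T ≠ 0 ∧ TensorReg b B T ∧ (∀ i, TensorReg b B (a i • T)) ∧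
      ∀ z : E j, IsAlgebraic ((IntermediateField.adjoin ℂ (Set.range a)).map N.val)
        (algebraMap (E j) K z) := by
    intro j
    let M : IntermediateField N K := IntermediateField.adjoin N (Set.range (algebraMap (E j) K))
    have hfj : FiniteDimensional N M := hfin j
    have hdj : finrank N M ≤
      finrank L (IntermediateField.adjoin L (Set.range (algebraMap (E j) K))) := hdeg j
    have hmem : ∀ z : E j, algebraMap (E j) K z ∈ M := fun z =>
      IntermediateField.subset_adjoin _ _ ⟨z, rfl⟩
    let iEM : Algebra (E j) M := RingHom.toAlgebra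
      { toFun := fun z => ⟨algebraMap (E j) K z, hmem z⟩
        map_one' := Subtype.ext (map_one _)
        map_mul' := fun a b => Subtype.ext (map_mul _ a b)
        map_zero' := Subtype.ext (map_zero _)
        map_add' := fun a b => Subtype.ext (map_add _ a b) }
    have t1 : IsScalarTower ℂ N M := inferInstance
    have t2 : IsScalarTower ℂ (E j) M := IsScalarTower.of_algebraMap_eq fun c =>
      Subtype.ext (IsScalarTower.algebraMap_apply ℂ (E j) K c)
    have hd' : 2 * finrank N (IntermediateField.adjoin N (Set.range (algebraMap (E j) M))) <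
        g j := by
      have h1 : finrank N (IntermediateField.adjoin N (Set.range (algebraMap (E j) M))) ≤
          finrank N M :=
        LinearMap.finrank_le_finrank_of_injective
          (f := (IntermediateField.adjoin N (Set.range (algebraMap (E j) M))).val.toLinearMap)
          (IntermediateField.adjoin N (Set.range (algebraMap (E j) M))).val.injective
      have h2 := hd j
      omega
    obtain ⟨r, T, ι, a, hT0, hT, hTa, halg'⟩ := core (N := N) (K := M) (E := E j) (hE j) hb
      (hx j) (BX := BX j) (hsep j) hd'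
    have hBj : ∀ P, Bd (N := N) (K := M) (BX j) P → B P := by
      rintro P ⟨Q, e, P', e', h1, h2, h3⟩
      rw [hB]
      refine ⟨j, Q, e, P', e', h1, h2, h3.1, fun z y hy => ?_⟩
      have h4 : y = algebraMap (E j) M z := Subtype.ext hy
      rw [h4]
      exact h3.2 z
    refine ⟨r, T, ι, a, hT0, tensorReg_mono hBj hT, fun i => tensorReg_mono hBj (hTa i),
      fun z => ?_⟩
    obtain ⟨F, hF⟩ : ∃ F : IntermediateField ℂ N, F = IntermediateField.adjoin ℂ (Set.range a) :=
      ⟨_, rfl⟩
    rw [← hF] at halg' ⊢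
    let f : F →+* F.map N.val :=
      { toFun := fun c => ⟨((c : N) : L), ⟨c, c.2, rfl⟩⟩
        map_one' := rfl
        map_mul' := fun _ _ => rfl
        map_zero' := rfl
        map_add' := fun _ _ => rfl }
    exact (halg' z).ringHom_of_comp_eq f (algebraMap M K) f.injective rfl
  choose r T ι a hT0 hT hTa halg' using hone
  obtain ⟨s, S, hS0, hS, hSa⟩ := exists_prod T a hT0 hT hTa
  have hbig : BigTensors N b B := by
    refine big_of (ι := Σ j, ι j) (a := fun p => a p.1 p.2) hb hS0
      hS (fun p => hSa p.1 p.2) ?_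
    intro w
    obtain ⟨F, hF⟩ : ∃ F : IntermediateField ℂ N, F =
      IntermediateField.adjoin ℂ (Set.range fun p : Σ j, ι j => a p.1 p.2) := ⟨_, rfl⟩
    rw [← hF]
    have hle : F.map N.val ≤ N := by
      rintro _ ⟨c, -, rfl⟩
      exact c.2
    have h1 : ∀ j, ∀ z : E j, IsAlgebraic (F.map N.val) (algebraMap (E j) K z) := by
      intro j z
      have hjF : (IntermediateField.adjoin ℂ (Set.range (a j))).map N.val ≤ F.map N.val := by
        apply IntermediateField.map_mono
        rw [hF]
        apply IntermediateField.adjoin.mono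
        rintro _ ⟨i, rfl⟩
        exact ⟨⟨j, i⟩, rfl⟩
      exact (halg' j z).ringHom_of_comp_eq (IntermediateField.inclusion hjF).toRingHom
        (RingHom.id K) (IntermediateField.inclusion hjF).injective rfl
    have h2 := hmin _ hle h1 (w : L) w.2
    exact (isAlgebraic_ringHom_iff_of_comp_eq (equivMap F N.val) N.val N.val.injective rfl).1 h2
  rw [hB] at hbig
  refine ⟨N, b, hb, hcl, halg, hfin, ?_, hbig⟩
  · let A0 : IntermediateField N K := algebraicClosure N K
    have h1 : Algebra.trdeg ℂ A0 = Algebra.trdeg ℂ N := by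
      rw [← _root_.trdeg_add_eq ℂ N (A := A0)]
      have h2 : Algebra.trdeg N A0 = 0 := _root_.trdeg_eq_zero
      rw [h2, add_zero]
    rw [hb] at h1
    rw [← h1]
    have hle : IntermediateField.adjoin ℂ (⋃ j, Set.range (algebraMap (E j) K)) ≤
        A0.restrictScalars ℂ := by
      rw [adjoin_le_iff]
      intro z hz
      obtain ⟨j, w, rfl⟩ := Set.mem_iUnion.1 hz
      exact mem_algebraicClosure_iff.2 (halg j w)
    exact _root_.trdeg_le_of_injective (IntermediateField.inclusion hle)
      (IntermediateField.inclusion hle).injective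

end Pool.Agent.N214.CL
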