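import Pool.Agent.Y172.Cov1
import Pool.Agent.W619.Y.LRes
import Pool.Agent.W619.PQ.Approx

/-!
Project CL (helper214): places of a compositum.
-/

set_option autoImplicit false
set_option linter.overlappingInstances false

open FF Module Pool.Agent.Y172 Pool.Agent.W603.LV

namespace Pool.Agent.N214.CL

/-- **LOVER.** `N` is algebraically closed in `L`, `K` is finite over `L`, `M ⊆ K` is finite over `N`.
Places of `M` and of `L` over the same place of `N` have a common extension to `K`. -/
def S_LOVER : Prop :=
  ∀ (L K : Type) [Field L] [Field K] [Algebra ℂ L] [Algebra ℂ K] [Algebra L K]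
    [IsScalarTower ℂ L K] [FiniteDimensional L K] (N : IntermediateField ℂ L),
    (∀ z : L, IsAlgebraic N z → z ∈ N) →
    ∀ (M : IntermediateField N K) [FiniteDimensional N M] (P : Place ℂ N) (Q : Place ℂ M) (e : ℕ)
      (R : Place ℂ L) (r : ℕ), Over Q P e → Over R P r →
    ∃ (S : Place ℂ K) (a a' : ℕ), Over S Q a ∧ Over S R a'

end Pool.Agent.N214.CL
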